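import Pool.Agent.R703.FS.Gen

/-!
MP_5ecade_al (degrees modulo `p` in the McKay conjecture, Isaacs and Navarro).

For a finite group `J` and `n ≥ 1` let `ν_n(χ) = 1/|J| ∑ g, χ(g ^ n)` be the `n`-th Frobenius–Schur
indicator (`indicator n χ`, an integer) of an irreducible complex character `χ` (for `n = 2`: `1` if
`χ` is the character of a real representation, `-1` if `χ` is real valued otherwise, and `0` if `χ`
is not real valued), and let `fsSum p n C` be the sum of `χ(1) ν_n(χ)` over the irreducible
characters of `J` of degree prime to `p` with the property `C`.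
-/

set_option autoImplicit false

namespace Pool.Agent.Results.MP_5ecade_al.IndicatorCongruence

open Pool.Agent.R703.FS

/-- Let `p` be a prime, `G` a finite group, `n ≥ 1`, and let `H` be a subgroup of `G` that contains
`Q` and `C_G(Q)` for some `p`-subgroup `Q` of `G` (for example `H = N_G(P)` for a Sylow `p`-subgroup
`P = Q`). The sum of `χ(1) ν_n(χ)` over `Irr_{p'}(G)` is congruent modulo `p` to the sum of
`ψ(1) ν_n(ψ)` over `Irr_{p'}(H)`. -/
theorem result (p : ℕ) [Fact p.Prime] (G : Type) [Group G] [Finite G] (Q H : Subgroup G)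
    (hQ : IsPGroup p Q) (hQH : Q ≤ H) (hC : Subgroup.centralizer (Q : Set G) ≤ H) (n : ℕ)
    (hn : 0 < n) :
    ∃ m : ℤ, fsSum p n (fun _ : G → ℂ => True) - fsSum p n (fun _ : H → ℂ => True) = p * m := by
  have h4 := main_groupG (p := p) hQ hQH hC hn (RingEquiv.refl ℂ) ⟨0, fun z _ => rfl⟩
  have e : ∀ (J : Type) [Group J], (fun χ : J → ℂ => FixedBy (RingEquiv.refl ℂ) χ) =
      fun _ => True := by
    intro J _
    funext χ
    exact eq_true fun g => rfl
  rw [e, e] at h4
  exact h4

end Pool.Agent.Results.MP_5ecade_al.IndicatorCongruence
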